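import Pool.Agent.T9h51.QL.CountL

set_option autoImplicit false
set_option linter.unusedSectionVars false

/-!
# QE: counting the edges, the sharp form for every density
-/

namespace Pool.Agent.T9h51.QE

open Finset Pool.Agent.T9h34.Q Pool.Agent.T9h16.QL Pool.Agent.T9h51.QC Pool.Agent.T9h51.QL
open Pool.Agent.PC34 (prob withClique labelGraph)
open Pool.Agent.T9h34 (graphInput)
open Pool.Agent.T9h34.P (gr)

section lab

variable {E : Type} [Fintype E] [DecidableEq E] {L : ℕ}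

theorem sum_three {e e' e'' : E} (h : e ≠ e') (h' : e ≠ e'') (g g' g'' : Fin L → ℝ)
    (hg : ∑ i, g i = 0) :
    ∑ lab : E → Fin L, g (lab e) * (g' (lab e') * g'' (lab e'')) = 0 := by
  have h1 := Finset.prod_univ_sum (fun _ : E => (univ : Finset (Fin L)))
    (fun x i => (if x = e then g i else (1 : ℝ)) * ((if x = e' then g' i else (1 : ℝ)) *
      (if x = e'' then g'' i else (1 : ℝ))))
  rw [prod_eq_zero (mem_univ e) (by simpa [h, h'] using hg), Fintype.piFinset_univ] at h1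
  rw [h1]
  refine sum_congr rfl fun lab _ => ?_
  rw [prod_mul_distrib, prod_mul_distrib, prod_ite_eq', prod_ite_eq', prod_ite_eq']
  simp

end lab

section counts

variable {n a L : ℕ}

theorem card_two (A : Finset (Fin n × Fin n)) (x : Fin n × Fin n) :
    (A.filter (fun y => s(x.1, x.2) = s(y.1, y.2))).card ≤ 2 := by
  refine (card_le_card ?_).trans (card_le_two (a := x) (b := x.swap))
  intro y hy
  rw [mem_filter] at hy
  rw [mem_insert, mem_singleton]
  rcases Sym2.eq_iff.mp hy.2 with h | h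
  · left
    exact Prod.ext h.1.symm h.2.symm
  · right
    exact Prod.ext h.2.symm h.1.symm

/-- the variance of a sum over pairs -/
theorem sum_sq (hL : 0 < L) (haL : a ≤ L) (A : Finset (Fin n × Fin n)) :
    ∑ lab : Sym2 (Fin n) → Fin L, (∑ x ∈ A, v a L (lab s(x.1, x.2))) ^ 2 ≤
    2 * (A.card : ℝ) * ((a : ℝ) / L * (1 - (a : ℝ) / L)) *
      Fintype.card (Sym2 (Fin n) → Fin L) := by
  have hLr : (0 : ℝ) < L := by exact_mod_cast hL
  have hp1 : (a : ℝ) / L ≤ 1 := by
    rw [div_le_one hLr]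
    exact_mod_cast haL
  have hp0 : 0 ≤ (a : ℝ) / L := by positivity
  set p : ℝ := (a : ℝ) / L with hp
  set CU : ℝ := ((Fintype.card (Sym2 (Fin n) → Fin L) : ℕ) : ℝ) with hCU
  have h7 : (0 : ℝ) ≤ CU := Nat.cast_nonneg _
  have h8 : 0 ≤ p * (1 - p) * CU := mul_nonneg (mul_nonneg hp0 (by linarith)) h7
  have h1 : ∑ lab : Sym2 (Fin n) → Fin L, (∑ x ∈ A, v a L (lab s(x.1, x.2))) ^ 2 =
      ∑ x ∈ A, ∑ y ∈ A,
        ∑ lab : Sym2 (Fin n) → Fin L, v a L (lab s(x.1, x.2)) * v a L (lab s(y.1, y.2)) := by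
    have h2 : ∀ lab : Sym2 (Fin n) → Fin L, (∑ x ∈ A, v a L (lab s(x.1, x.2))) ^ 2 = ∑ x ∈ A,
        ∑ y ∈ A, v a L (lab s(x.1, x.2)) * v a L (lab s(y.1, y.2)) := by
      intro lab
      rw [sq, sum_mul_sum]
    simp only [h2]
    rw [sum_comm]
    refine sum_congr rfl fun p _ => ?_
    rw [sum_comm]
  have h3 : ∀ x ∈ A, ∑ y ∈ A,
        ∑ lab : Sym2 (Fin n) → Fin L, v a L (lab s(x.1, x.2)) * v a L (lab s(y.1, y.2)) ≤
      2 * (p * (1 - p) * CU) := by
    intro x _
    have h4 : ∀ y : Fin n × Fin n,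
        ∑ lab : Sym2 (Fin n) → Fin L, v a L (lab s(x.1, x.2)) * v a L (lab s(y.1, y.2)) =
        if s(x.1, x.2) = s(y.1, y.2) then p * (1 - p) * CU else 0 := by
      intro y
      split_ifs with h
      · rw [← h]
        simp only [v_sq]
        rw [sum_add_distrib, ← mul_sum, sum_one _ _ (sum_v hL haL), sum_const, card_univ,
          nsmul_eq_mul]
        ring
      · exact sum_two h _ (sum_v hL haL)
    simp only [h4]
    rw [← sum_filter, sum_const, nsmul_eq_mul]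
    have h6 : ((A.filter (fun y => s(x.1, x.2) = s(y.1, y.2))).card : ℝ) ≤ 2 := by
      exact_mod_cast card_two A x
    exact mul_le_mul_of_nonneg_right h6 h8
  rw [h1]
  refine (sum_le_sum h3).trans (le_of_eq ?_)
  rw [sum_const, nsmul_eq_mul]
  ring

/-- the third moments -/
theorem sum_vZ (hL : 0 < L) (haL : a ≤ L) (x : Fin n × Fin n) :
    -(4 * (1 - (a : ℝ) / L) * Fintype.card (Sym2 (Fin n) → Fin L)) ≤
    ∑ lab : Sym2 (Fin n) → Fin L, v a L (lab s(x.1, x.2)) * ZL a lab ^ 2 := by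
  have hLr : (0 : ℝ) < L := by exact_mod_cast hL
  have hp1 : (a : ℝ) / L ≤ 1 := by
    rw [div_le_one hLr]
    exact_mod_cast haL
  have hp0 : 0 ≤ (a : ℝ) / L := by positivity
  set p : ℝ := (a : ℝ) / L with hp
  set CU : ℝ := ((Fintype.card (Sym2 (Fin n) → Fin L) : ℕ) : ℝ) with hCU
  have h7 : (0 : ℝ) ≤ CU := Nat.cast_nonneg _
  have h8 : 0 ≤ (1 - p) * CU := mul_nonneg (by linarith) h7
  set A : Finset (Fin n × Fin n) := (univ : Finset (Fin n)).offDiag with hA
  have h1 : ∑ lab : Sym2 (Fin n) → Fin L, v a L (lab s(x.1, x.2)) * ZL a lab ^ 2 =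
      ∑ y ∈ A, ∑ z ∈ A, ∑ lab : Sym2 (Fin n) → Fin L,
        v a L (lab s(x.1, x.2)) * (v a L (lab s(y.1, y.2)) * v a L (lab s(z.1, z.2))) := by
    have h2 : ∀ lab : Sym2 (Fin n) → Fin L, v a L (lab s(x.1, x.2)) * ZL a lab ^ 2 = ∑ y ∈ A,
        ∑ z ∈ A, v a L (lab s(x.1, x.2)) *
          (v a L (lab s(y.1, y.2)) * v a L (lab s(z.1, z.2))) := by
      intro lab
      unfold ZL
      rw [sq, sum_mul_sum, mul_sum]
      refine sum_congr rfl fun y _ => ?_
      rw [mul_sum]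
    simp only [h2]
    rw [sum_comm]
    refine sum_congr rfl fun p _ => ?_
    rw [sum_comm]
  have h3 : ∀ y z : Fin n × Fin n, ∑ lab : Sym2 (Fin n) → Fin L,
        v a L (lab s(x.1, x.2)) * (v a L (lab s(y.1, y.2)) * v a L (lab s(z.1, z.2))) =
      if s(x.1, x.2) = s(y.1, y.2) then
        (if s(x.1, x.2) = s(z.1, z.2) then (1 - 2 * p) * (p * (1 - p)) * CU else 0) else 0 := by
    intro y z
    by_cases hy : s(x.1, x.2) = s(y.1, y.2)
    · rw [if_pos hy]
      by_cases hz : s(x.1, x.2) = s(z.1, z.2)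
      · rw [if_pos hz, ← hy, ← hz]
        have h4 : ∀ lab : Sym2 (Fin n) → Fin L,
            v a L (lab s(x.1, x.2)) * (v a L (lab s(x.1, x.2)) * v a L (lab s(x.1, x.2))) =
            ((1 - 2 * p) * (1 - 2 * p) + p * (1 - p)) * v a L (lab s(x.1, x.2)) +
              (1 - 2 * p) * (p * (1 - p)) := by
          intro lab
          rw [v_sq, mul_add, mul_left_comm, v_sq]
          ring
        simp only [h4]
        rw [sum_add_distrib, ← mul_sum, sum_one _ _ (sum_v hL haL), sum_const, card_univ,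
          nsmul_eq_mul]
        ring
      · rw [if_neg hz, ← hy]
        have h4 : ∀ lab : Sym2 (Fin n) → Fin L,
            v a L (lab s(x.1, x.2)) * (v a L (lab s(x.1, x.2)) * v a L (lab s(z.1, z.2))) =
            v a L (lab s(z.1, z.2)) * (v a L (lab s(x.1, x.2)) * v a L (lab s(x.1, x.2))) := by
          intro lab
          ring
        simp only [h4]
        exact sum_three (Ne.symm hz) (Ne.symm hz) _ _ _ (sum_v hL haL)
    · rw [if_neg hy]
      by_cases hz : s(x.1, x.2) = s(z.1, z.2)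
      · rw [← hz]
        have h4 : ∀ lab : Sym2 (Fin n) → Fin L,
            v a L (lab s(x.1, x.2)) * (v a L (lab s(y.1, y.2)) * v a L (lab s(x.1, x.2))) =
            v a L (lab s(y.1, y.2)) * (v a L (lab s(x.1, x.2)) * v a L (lab s(x.1, x.2))) := by
          intro lab
          ring
        simp only [h4]
        exact sum_three (Ne.symm hy) (Ne.symm hy) _ _ _ (sum_v hL haL)
      · exact sum_three hy hz _ _ _ (sum_v hL haL)
  rw [h1]
  simp only [h3]
  have h4 : ∑ y ∈ A, ∑ z ∈ A, (if s(x.1, x.2) = s(y.1, y.2) then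
        (if s(x.1, x.2) = s(z.1, z.2) then (1 - 2 * p) * (p * (1 - p)) * CU else 0) else (0 : ℝ)) =
      ((A.filter (fun y => s(x.1, x.2) = s(y.1, y.2))).card : ℝ) *
        ((A.filter (fun y => s(x.1, x.2) = s(y.1, y.2))).card *
          ((1 - 2 * p) * (p * (1 - p)) * CU)) := by
    have h5 : ∀ y ∈ A, ∑ z ∈ A, (if s(x.1, x.2) = s(y.1, y.2) then
        (if s(x.1, x.2) = s(z.1, z.2) then (1 - 2 * p) * (p * (1 - p)) * CU else 0) else (0 : ℝ)) =
        if s(x.1, x.2) = s(y.1, y.2) then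
          ((A.filter (fun y => s(x.1, x.2) = s(y.1, y.2))).card *
            ((1 - 2 * p) * (p * (1 - p)) * CU)) else 0 := by
      intro y _
      split_ifs with h6
      · rw [← sum_filter, sum_const, nsmul_eq_mul]
      · exact sum_const_zero
    rw [sum_congr rfl h5, ← sum_filter, sum_const, nsmul_eq_mul]
  rw [h4]
  have h6 : ((A.filter (fun y => s(x.1, x.2) = s(y.1, y.2))).card : ℝ) ≤ 2 := by
    exact_mod_cast card_two A x
  set t : ℝ := ((A.filter (fun y => s(x.1, x.2) = s(y.1, y.2))).card : ℝ) with ht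
  have h9 : 0 ≤ t := Nat.cast_nonneg _
  have h10 : -((1 - p) * CU) ≤ (1 - 2 * p) * (p * (1 - p)) * CU := by
    have h11 : (1 - 2 * p) * (p * (1 - p)) * CU = (p - 2 * p ^ 2) * ((1 - p) * CU) := by ring
    rw [h11]
    have h14 : 0 ≤ (1 - p) * (1 + 2 * p) := mul_nonneg (by linarith) (by linarith)
    nlinarith [mul_nonneg h14 h8]
  have h12 : t * t ≤ 4 := by nlinarith
  have h13 : t * t * (-((1 - p) * CU)) ≤ t * t * ((1 - 2 * p) * (p * (1 - p)) * CU) :=
    mul_le_mul_of_nonneg_left h10 (mul_nonneg h9 h9)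
  nlinarith [mul_le_mul_of_nonneg_right h12 h8]

/-- the number of the new pairs -/
noncomputable def DL (a : ℕ) (lab : Sym2 (Fin n) → Fin L) (S : Finset (Fin n)) : ℝ :=
  ∑ p ∈ S.offDiag, (1 - (a : ℝ) / L - v a L (lab s(p.1, p.2)))

theorem DL_eq (lab : Sym2 (Fin n) → Fin L) (S : Finset (Fin n)) :
    DL a lab S = (yn (low lab a) S : ℝ) - xn (low lab a) := by
  rw [ynL_eq]
  unfold DL
  ring

theorem DL_eq' (lab : Sym2 (Fin n) → Fin L) (S : Finset (Fin n)) :
    DL a lab S = (S.card * S.card - S.card) * (1 - (a : ℝ) / L) -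
      ∑ p ∈ S.offDiag, v a L (lab s(p.1, p.2)) := by
  unfold DL
  rw [sum_sub_distrib, sum_const, nsmul_eq_mul, offDiag_card, Nat.cast_sub (Nat.le_mul_self _),
    Nat.cast_mul]

theorem sum_v0 (hL : 0 < L) (haL : a ≤ L) (A : Finset (Fin n × Fin n)) :
    ∑ lab : Sym2 (Fin n) → Fin L, ∑ x ∈ A, v a L (lab s(x.1, x.2)) = 0 := by
  rw [sum_comm]
  exact sum_eq_zero fun x _ => sum_one _ _ (sum_v hL haL)

/-- the second moment of the number of the new pairs -/
theorem sum_DD (hL : 0 < L) (haL : a ≤ L) (S : Finset (Fin n)) :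
    ∑ lab : Sym2 (Fin n) → Fin L, DL a lab S ^ 2 ≤
    (S.card * S.card - S.card) * (1 - (a : ℝ) / L) *
      ((S.card * S.card - S.card) * (1 - (a : ℝ) / L) + 2) *
      Fintype.card (Sym2 (Fin n) → Fin L) := by
  have hLr : (0 : ℝ) < L := by exact_mod_cast hL
  have hp1 : (a : ℝ) / L ≤ 1 := by
    rw [div_le_one hLr]
    exact_mod_cast haL
  have hp0 : 0 ≤ (a : ℝ) / L := by positivity
  have h1 := sum_sq (n := n) hL haL S.offDiag
  have h2 := sum_v0 (n := n) (a := a) hL haL S.offDiag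
  rw [offDiag_card, Nat.cast_sub (Nat.le_mul_self _), Nat.cast_mul] at h1
  set p : ℝ := (a : ℝ) / L with hp
  set CU : ℝ := ((Fintype.card (Sym2 (Fin n) → Fin L) : ℕ) : ℝ) with hCU
  have h7 : (0 : ℝ) ≤ CU := Nat.cast_nonneg _
  set N : ℝ := (S.card : ℝ) * S.card - S.card with hN
  have hN0 : 0 ≤ N := by
    have h8 : S.card ≤ S.card * S.card := Nat.le_mul_self _
    have h9 : (S.card : ℝ) ≤ S.card * S.card := by exact_mod_cast h8
    rw [hN]
    linarith
  have h3 : ∀ lab : Sym2 (Fin n) → Fin L, DL a lab S ^ 2 = (N * (1 - p)) ^ 2 -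
      2 * (N * (1 - p)) * (∑ x ∈ S.offDiag, v a L (lab s(x.1, x.2))) +
      (∑ x ∈ S.offDiag, v a L (lab s(x.1, x.2))) ^ 2 := by
    intro lab
    rw [DL_eq']
    ring
  simp only [h3]
  rw [sum_add_distrib, sum_sub_distrib, ← mul_sum, h2, sum_const, card_univ, nsmul_eq_mul]
  have h4 : 2 * N * (p * (1 - p)) * CU ≤ 2 * N * (1 - p) * CU := by
    have h5 : p * (1 - p) ≤ 1 - p := by nlinarith
    gcongr
  rw [← hCU]
  nlinarith

/-- the number of the new pairs, weighted by the square of the deviation -/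
theorem sum_DZ (hL : 0 < L) (haL : a ≤ L) (S : Finset (Fin n)) :
    ∑ lab : Sym2 (Fin n) → Fin L, DL a lab S * ZL a lab ^ 2 ≤
    (S.card * S.card - S.card) * (1 - (a : ℝ) / L) *
      (2 * (n : ℝ) ^ 2 * ((a : ℝ) / L * (1 - (a : ℝ) / L)) + 4) *
      Fintype.card (Sym2 (Fin n) → Fin L) := by
  have hLr : (0 : ℝ) < L := by exact_mod_cast hL
  have hp1 : (a : ℝ) / L ≤ 1 := by
    rw [div_le_one hLr]
    exact_mod_cast haL
  have hp0 : 0 ≤ (a : ℝ) / L := by positivity
  have h1 : ∑ lab : Sym2 (Fin n) → Fin L, ZL a lab ^ 2 ≤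
      2 * (((univ : Finset (Fin n)).offDiag.card : ℕ) : ℝ) * ((a : ℝ) / L * (1 - (a : ℝ) / L)) *
      Fintype.card (Sym2 (Fin n) → Fin L) := sum_sq (n := n) hL haL _
  rw [card_off] at h1
  have h2 := fun x : Fin n × Fin n => sum_vZ (n := n) (a := a) hL haL x
  set p : ℝ := (a : ℝ) / L with hp
  set CU : ℝ := ((Fintype.card (Sym2 (Fin n) → Fin L) : ℕ) : ℝ) with hCU
  have h7 : (0 : ℝ) ≤ CU := Nat.cast_nonneg _
  have h3 : ∑ lab : Sym2 (Fin n) → Fin L, DL a lab S * ZL a lab ^ 2 =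
      ∑ x ∈ S.offDiag, ((1 - p) * ∑ lab : Sym2 (Fin n) → Fin L, ZL a lab ^ 2 -
        ∑ lab : Sym2 (Fin n) → Fin L, v a L (lab s(x.1, x.2)) * ZL a lab ^ 2) := by
    have h4 : ∀ lab : Sym2 (Fin n) → Fin L, DL a lab S * ZL a lab ^ 2 =
        ∑ x ∈ S.offDiag, ((1 - p) * ZL a lab ^ 2 - v a L (lab s(x.1, x.2)) * ZL a lab ^ 2) := by
      intro lab
      unfold DL
      rw [sum_mul]
      refine sum_congr rfl fun x _ => ?_
      ring
    simp only [h4]
    rw [sum_comm]
    refine sum_congr rfl fun x _ => ?_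
    rw [sum_sub_distrib, mul_sum]
  rw [h3]
  have h5 : ∀ x ∈ S.offDiag, ((1 - p) * ∑ lab : Sym2 (Fin n) → Fin L, ZL a lab ^ 2 -
        ∑ lab : Sym2 (Fin n) → Fin L, v a L (lab s(x.1, x.2)) * ZL a lab ^ 2) ≤
      (1 - p) * (2 * (n : ℝ) ^ 2 * (p * (1 - p)) + 4) * CU := by
    intro x _
    have h6 : ∑ lab : Sym2 (Fin n) → Fin L, ZL a lab ^ 2 ≤ 2 * (n : ℝ) ^ 2 * (p * (1 - p)) * CU := by
      refine h1.trans ?_
      have h8 : (n : ℝ) * n - n ≤ n ^ 2 := by nlinarith [(Nat.cast_nonneg n : (0 : ℝ) ≤ n)]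
      have h9 : 0 ≤ p * (1 - p) := mul_nonneg hp0 (by linarith)
      gcongr
    have h10 := mul_le_mul_of_nonneg_left h6 (by linarith : 0 ≤ 1 - p)
    have h11 := h2 x
    linarith
  refine (sum_le_sum h5).trans (le_of_eq ?_)
  rw [sum_const, nsmul_eq_mul, offDiag_card, Nat.cast_sub (Nat.le_mul_self _), Nat.cast_mul]
  ring

end counts

/-- (S1E) counting the edges, the sharp form -/
theorem stCountE : ∃ c : ℝ, 0 < c ∧ ∀ n k a L : ℕ, 2 ≤ k → k ≤ n → 1 ≤ a → a < L →
  L ≤ (L - a) * n ^ 2 → (k : ℝ) ^ 2 * Real.sqrt ((L : ℝ) / a - 1) ≤ n →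
  ∃ θ : ℝ,
  prob (fun lab : Sym2 (Fin n) → Fin L =>
    θ ≤ ∑ p : Fin n × Fin n, (if graphInput (labelGraph lab a) p = true then (1 : ℝ) else 0)) +
    c * (Real.sqrt ((L : ℝ) / a - 1) * (k ^ 2 / n)) ≤
  prob (fun x : (Sym2 (Fin n) → Fin L) × {S : Finset (Fin n) // S.card = k} =>
    θ ≤ ∑ p : Fin n × Fin n,
      (if graphInput (withClique (labelGraph x.1 a) x.2.1) p = true then (1 : ℝ) else 0)) := by
  classical
  refine ⟨1 / 200, by norm_num, ?_⟩
  intro n k a L hk hkn' ha haL' hLn hkg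
  have haL : a ≤ L := haL'.le
  have hL : 0 < L := by omega
  have hLr : (0 : ℝ) < L := by exact_mod_cast hL
  have har : (0 : ℝ) < a := by exact_mod_cast ha
  have hn2 : 2 ≤ n := hk.trans hkn'
  have hnr : (2 : ℝ) ≤ n := by exact_mod_cast hn2
  have hkr : (2 : ℝ) ≤ k := by exact_mod_cast hk
  set g : ℝ := Real.sqrt ((L : ℝ) / a - 1) with hg
  set p : ℝ := (a : ℝ) / L with hp
  have hp1 : p < 1 := by
    rw [hp, div_lt_one hLr]
    exact_mod_cast haL'
  have hp0 : 0 < p := by positivity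
  have hg2 : g ^ 2 * p = 1 - p := by
    rw [hg, Real.sq_sqrt, hp]
    · field_simp
    · rw [sub_nonneg, one_le_div har]
      exact_mod_cast haL
  have hg0 : 0 ≤ g := Real.sqrt_nonneg _
  have hgp : 0 < g := by
    rcases hg0.lt_or_eq with h | h
    · exact h
    · rw [← h] at hg2
      nlinarith
  -- the deviation
  set σ : ℝ := n * g * p with hσ
  have hσ0 : 0 < σ := by positivity
  have hσ2 : σ ^ 2 = n ^ 2 * (p * (1 - p)) := by
    rw [hσ, ← hg2]
    ring
  have hpn : 1 ≤ (1 - p) * (n : ℝ) ^ 2 := by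
    have h1 : (L : ℝ) ≤ (L - a) * (n : ℝ) ^ 2 := by
      have h2 : ((L : ℕ) : ℝ) ≤ (((L - a) * n ^ 2 : ℕ) : ℝ) := by exact_mod_cast hLn
      rw [Nat.cast_mul, Nat.cast_sub haL, Nat.cast_pow] at h2
      exact h2
    have h3 : (1 - p) * (n : ℝ) ^ 2 = (L - a) * (n : ℝ) ^ 2 / L := by
      rw [hp]
      field_simp
    rw [h3, le_div_iff₀ hLr]
    linarith
  have hσ1 : 1 / 2 ≤ σ ^ 2 := by
    rw [hσ2]
    rcases le_or_gt (1 / 2) p with h | h
    · nlinarith
    · have h1 : 4 * g ≤ n := by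
        have h0 : (4 : ℝ) ≤ (k : ℝ) ^ 2 := by nlinarith
        exact (mul_le_mul_of_nonneg_right h0 hg0).trans hkg
      have h2 : 16 * g ^ 2 ≤ (n : ℝ) ^ 2 := by nlinarith
      have h3 : 0 ≤ p * (1 - p) := mul_nonneg hp0.le (by linarith)
      have h4 : 16 * g ^ 2 * (p * (1 - p)) ≤ (n : ℝ) ^ 2 * (p * (1 - p)) :=
        mul_le_mul_of_nonneg_right h2 h3
      have h5 : 16 * g ^ 2 * (p * (1 - p)) = 16 * (1 - p) ^ 2 := by
        have : 16 * g ^ 2 * (p * (1 - p)) = 16 * (g ^ 2 * p) * (1 - p) := by ring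
        rw [this, hg2]
        ring
      nlinarith
  have hσ3 : 7 / 10 ≤ σ := by nlinarith
  -- the mean of the number of new pairs
  set m : ℝ := ((k : ℝ) * k - k) * (1 - p) with hm
  have hm1 : m ≤ σ := by
    have h1 : m ≤ (k : ℝ) ^ 2 * g * (g * p) := by
      rw [hm, ← hg2]
      have : 0 ≤ g ^ 2 * p := by positivity
      nlinarith
    refine h1.trans ?_
    rw [hσ, mul_assoc (n : ℝ)]
    exact mul_le_mul_of_nonneg_right hkg (by positivity)
  have hm2 : (k : ℝ) ^ 2 / 2 * (1 - p) ≤ m := by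
    rw [hm]
    apply mul_le_mul_of_nonneg_right _ (by linarith)
    nlinarith
  have hm0 : 0 < m := lt_of_lt_of_le (by
    have : 0 < 1 - p := by linarith
    positivity) hm2
  set XX := {S : Finset (Fin n) // S.card = k} with hXX
  have hne : Nonempty XX := by
    obtain ⟨S, hS⟩ := Finset.exists_subset_card_eq (s := (univ : Finset (Fin n))) (n := k)
      (by rw [card_univ, Fintype.card_fin]; exact hkn')
    exact ⟨⟨S, hS.2⟩⟩
  have hneF : Nonempty (Fin L) := ⟨⟨0, hL⟩⟩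
  set CU : ℝ := ((Fintype.card (Sym2 (Fin n) → Fin L) : ℕ) : ℝ) with hCU
  set CX : ℝ := ((Fintype.card XX : ℕ) : ℝ) with hCX
  have hCU0 : 0 < CU := by rw [hCU]; exact_mod_cast Fintype.card_pos
  have hCX0 : 0 < CX := by rw [hCX]; exact_mod_cast Fintype.card_pos
  set μ : ℝ := ((n : ℝ) * n - n) * p with hμ
  have hμ0 : 0 ≤ μ := mul_nonneg (by nlinarith) hp0.le
  set lo : ℕ := ⌊μ - 8 * σ⌋₊ with hlo
  set hi : ℕ := ⌈μ + 28 * σ⌉₊ with hhi
  have hDnn : ∀ (lab : Sym2 (Fin n) → Fin L) (S : XX), 0 ≤ DL a lab S.1 := by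
    intro lab S
    have h2 := (yn_bounds (low lab a) S.1).1
    have h3 : (xn (low lab a) : ℝ) ≤ yn (low lab a) S.1 := by exact_mod_cast h2
    rw [DL_eq]
    linarith
  -- one outcome
  have hone : ∀ x : (Sym2 (Fin n) → Fin L) × XX,
      DL a x.1 x.2.1 - (DL a x.1 x.2.1 * ZL a x.1 ^ 2 / (64 * σ ^ 2) +
        DL a x.1 x.2.1 ^ 2 / (20 * σ)) ≤
      ∑ θ ∈ Icc lo hi, ((if θ ≤ yn (low x.1 a) x.2.1 then (1 : ℝ) else 0) -
        if θ ≤ xn (low x.1 a) then 1 else 0) := by
    intro x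
    have h2 := (yn_bounds (low x.1 a) x.2.1).1
    have h3 := one_outcome (xn (low x.1 a)) (yn (low x.1 a) x.2.1)
      (yn (low x.1 a) x.2.1 - xn (low x.1 a)) lo hi h2 (by omega)
    rw [Nat.cast_sub h2, ← DL_eq] at h3
    refine le_trans (sub_le_sub_left ?_ _) h3
    have h4 := hDnn x.1 x.2
    have h5 : 0 ≤ DL a x.1 x.2.1 * ZL a x.1 ^ 2 / (64 * σ ^ 2) := by positivity
    have h6 : 0 ≤ DL a x.1 x.2.1 ^ 2 / (20 * σ) := by positivity
    by_cases h7 : xn (low x.1 a) + 1 < lo ∨ hi < yn (low x.1 a) x.2.1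
    · rw [if_pos h7, mul_one]
      by_cases h8 : 8 * σ < |ZL a x.1|
      · have h9 : 64 * σ ^ 2 ≤ ZL a x.1 ^ 2 := by
          rw [← sq_abs (ZL a x.1)]
          nlinarith
        have h10 : DL a x.1 x.2.1 ≤ DL a x.1 x.2.1 * ZL a x.1 ^ 2 / (64 * σ ^ 2) := by
          rw [le_div_iff₀ (by positivity)]
          exact mul_le_mul_of_nonneg_left h9 h4
        linarith
      · have h9 : 20 * σ < DL a x.1 x.2.1 := by
          by_contra hcon
          push Not at hcon h8
          rw [abs_le] at h8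
          have h10 := xnL_eq (a := a) x.1
          rw [← hp, ← hμ] at h10
          rcases h7 with h7 | h7
          · have h11 : lo ≤ xn (low x.1 a) := by
              rw [hlo]
              refine Nat.floor_le_of_le ?_
              rw [h10]
              linarith [h8.1]
            omega
          · have h11 : yn (low x.1 a) x.2.1 ≤ hi := by
              rw [hhi]
              have h12 : (yn (low x.1 a) x.2.1 : ℝ) ≤ μ + 28 * σ := by
                have h13 := DL_eq (a := a) x.1 x.2.1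
                linarith [h8.2]
              exact_mod_cast h12.trans (Nat.le_ceil _)
            omega
        have h10 : DL a x.1 x.2.1 ≤ DL a x.1 x.2.1 ^ 2 / (20 * σ) := by
          rw [le_div_iff₀ (by positivity)]
          nlinarith
        linarith
    · rw [if_neg h7, mul_zero]
      linarith
  -- the sum over all outcomes and all thresholds
  have hsum : m / 2 * (CU * CX) ≤ ∑ θ ∈ Icc lo hi, ∑ x : (Sym2 (Fin n) → Fin L) × XX,
      ((if θ ≤ yn (low x.1 a) x.2.1 then (1 : ℝ) else 0) -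
        if θ ≤ xn (low x.1 a) then 1 else 0) := by
    rw [sum_comm]
    refine le_trans ?_ (sum_le_sum fun x _ => hone x)
    rw [Fintype.sum_prod_type_right]
    have h3 : ∀ S : XX, m / 2 * CU ≤ ∑ lab : Sym2 (Fin n) → Fin L,
        (DL a lab S.1 - (DL a lab S.1 * ZL a lab ^ 2 / (64 * σ ^ 2) +
          DL a lab S.1 ^ 2 / (20 * σ))) := by
      intro S
      rw [sum_sub_distrib, sum_add_distrib, ← sum_div, ← sum_div]
      have h4 := sum_DL (n := n) hL haL S.1
      have h5 := sum_DD (n := n) hL haL S.1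
      have h6 := sum_DZ (n := n) hL haL S.1
      simp only [← DL_eq] at h4
      rw [S.2, ← hp, ← hm, ← hCU] at h4 h5 h6
      rw [h4]
      have h7 : (∑ lab : Sym2 (Fin n) → Fin L, DL a lab S.1 * ZL a lab ^ 2) / (64 * σ ^ 2) ≤
          10 / 64 * m * CU := by
        rw [div_le_iff₀ (by positivity)]
        refine h6.trans ?_
        have h8 : 2 * (n : ℝ) ^ 2 * (p * (1 - p)) + 4 ≤ 10 * σ ^ 2 := by
          rw [hσ2] at hσ1 ⊢
          linarith
        calc m * (2 * (n : ℝ) ^ 2 * (p * (1 - p)) + 4) * CU ≤ m * (10 * σ ^ 2) * CU := by gcongr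
          _ = _ := by ring
      have h8 : (∑ lab : Sym2 (Fin n) → Fin L, DL a lab S.1 ^ 2) / (20 * σ) ≤
          1 / 5 * m * CU := by
        rw [div_le_iff₀ (by positivity)]
        refine h5.trans ?_
        have h9 : m + 2 ≤ 4 * σ := by linarith
        calc m * (m + 2) * CU ≤ m * (4 * σ) * CU := by gcongr
          _ = _ := by ring
      have h9 : 0 < m * CU := by positivity
      linarith
    calc m / 2 * (CU * CX) = ∑ _S : XX, m / 2 * CU := by
          rw [sum_const, card_univ, nsmul_eq_mul]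
          ring
      _ ≤ _ := sum_le_sum fun S _ => h3 S
  -- a good threshold
  have hcard : ((Icc lo hi).card : ℝ) ≤ 42 * σ := by
    rw [Nat.card_Icc]
    have h1 : μ - 8 * σ < lo + 1 := Nat.lt_floor_add_one _
    have h2 : (hi : ℝ) < μ + 28 * σ + 1 := Nat.ceil_lt_add_one (by linarith)
    have h3 : ((hi + 1 - lo : ℕ) : ℝ) ≤ max ((hi : ℝ) + 1 - lo) 0 := by
      rcases le_total lo (hi + 1) with h | h
      · rw [Nat.cast_sub h]
        push_cast
        exact le_max_left _ _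
      · rw [Nat.sub_eq_zero_of_le h]
        simp
    refine h3.trans (max_le ?_ (by linarith))
    linarith
  obtain ⟨θ, hθ, hθ2⟩ : ∃ θ ∈ Icc lo hi, m / (84 * σ) * (CU * CX) ≤
      ∑ x : (Sym2 (Fin n) → Fin L) × XX,
        ((if θ ≤ yn (low x.1 a) x.2.1 then (1 : ℝ) else 0) -
          if θ ≤ xn (low x.1 a) then 1 else 0) := by
    by_contra hcon
    push Not at hcon
    rcases (Icc lo hi).eq_empty_or_nonempty with hE | hIne
    · rw [hE, sum_empty] at hsum
      have : 0 < m / 2 * (CU * CX) := by positivity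
      linarith
    have h1 := sum_lt_sum_of_nonempty hIne hcon
    rw [sum_const, nsmul_eq_mul] at h1
    have h0 : 0 ≤ m / (84 * σ) * (CU * CX) := by positivity
    have h2 : ((Icc lo hi).card : ℝ) * (m / (84 * σ) * (CU * CX)) ≤
        42 * σ * (m / (84 * σ) * (CU * CX)) := mul_le_mul_of_nonneg_right hcard h0
    have h3 : 42 * σ * (m / (84 * σ) * (CU * CX)) = m / 2 * (CU * CX) := by
      field_simp
      ring
    linarith
  refine ⟨θ, ?_⟩
  simp only [labelGraph_eq, sum_x, sum_y, Nat.cast_le]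
  rw [prob_eq2, prob_eq2]
  rw [sum_sub_distrib] at hθ2
  rw [Fintype.card_prod, Nat.cast_mul, ← hCU, ← hCX]
  have h7 : ∑ x : (Sym2 (Fin n) → Fin L) × XX, (if θ ≤ xn (low x.1 a) then (1 : ℝ) else 0) =
      CX * ∑ lab : Sym2 (Fin n) → Fin L, (if θ ≤ xn (low lab a) then (1 : ℝ) else 0) := by
    rw [Fintype.sum_prod_type, mul_sum]
    refine sum_congr rfl fun U _ => ?_
    show ∑ _S : XX, (if θ ≤ xn (low U a) then (1 : ℝ) else 0) = _
    rw [sum_const, card_univ, nsmul_eq_mul]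
  rw [h7] at hθ2
  rw [div_add' _ _ _ hCU0.ne', div_le_div_iff₀ hCU0 (mul_pos hCU0 hCX0)]
  have h9 : 1 / 200 * (g * ((k : ℝ) ^ 2 / n)) ≤ m / (84 * σ) := by
    rw [le_div_iff₀ (by positivity)]
    have h10 : 1 / 200 * (g * ((k : ℝ) ^ 2 / n)) * (84 * σ) =
        84 / 200 * ((k : ℝ) ^ 2 * (g ^ 2 * p)) := by
      rw [hσ]
      field_simp
    rw [h10, hg2]
    have h11 : 0 ≤ (k : ℝ) ^ 2 * (1 - p) := mul_nonneg (by positivity) (by linarith)
    linarith
  have h10 : 1 / 200 * (g * ((k : ℝ) ^ 2 / n)) * (CU * CX) ≤ m / (84 * σ) * (CU * CX) :=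
    mul_le_mul_of_nonneg_right h9 (by positivity)
  nlinarith [hθ2, h10]

end Pool.Agent.T9h51.QE
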